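import Pool.Agent.helper78.EQ.Spec

set_option autoImplicit false

open Complex MeasureTheory Set Metric

namespace Pool.Agent.EQ

open Pool.Agent.helper6.LD

/-- overlapping sets -/
theorem I3_over {Ω ι : Type*} [MeasurableSpace Ω] (μ : Measure Ω) (K : Finset ι) (A : ι → Set Ω)
    (hA : ∀ k ∈ K, MeasurableSet (A k)) (N : ENNReal)
    (hN : ∀ s : Ω, (∑ k ∈ K, (A k).indicator (1 : Ω → ENNReal) s) ≤ N) :
    ∑ k ∈ K, μ (A k) ≤ N * μ (⋃ k ∈ K, A k) := by
  have hU : MeasurableSet (⋃ k ∈ K, A k) := Finset.measurableSet_biUnion K hA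
  have h1 : ∑ k ∈ K, μ (A k) = ∫⁻ s, ∑ k ∈ K, (A k).indicator (1 : Ω → ENNReal) s ∂μ := by
    rw [lintegral_finset_sum' K (fun k hk => (measurable_one.indicator (hA k hk)).aemeasurable)]
    refine Finset.sum_congr rfl fun k hk => ?_
    rw [lintegral_indicator_one (hA k hk)]
  rw [h1]
  calc ∫⁻ s, ∑ k ∈ K, (A k).indicator (1 : Ω → ENNReal) s ∂μ
      ≤ ∫⁻ s, (⋃ k ∈ K, A k).indicator (fun _ => N) s ∂μ := by
        apply lintegral_mono
        intro s
        by_cases hs : s ∈ ⋃ k ∈ K, A k
        · simp only [Set.indicator_of_mem hs]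
          exact hN s
        · simp only [Set.indicator_of_notMem hs]
          rw [Finset.sum_eq_zero]
          intro k hk
          have : s ∉ A k := fun h => hs (by simp only [mem_iUnion]; exact ⟨k, hk, h⟩)
          exact Set.indicator_of_notMem this _
    _ = N * μ (⋃ k ∈ K, A k) := by
        rw [lintegral_indicator_const hU]

/-- number of integers in an interval -/
theorem I3_cnt (K : Finset ℕ) (x M : ℝ) (hM : 0 ≤ M) (h : ∀ k ∈ K, |x - (k : ℝ)| ≤ M) :
    (K.card : ℝ) ≤ 2 * M + 1 := by
  rcases K.eq_empty_or_nonempty with rfl | hne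
  · simp; linarith
  have hsub : K ⊆ Finset.Icc (K.min' hne) (K.max' hne) := fun k hk =>
    Finset.mem_Icc.2 ⟨K.min'_le k hk, K.le_max' k hk⟩
  have h1 := Finset.card_le_card hsub
  rw [Nat.card_Icc] at h1
  have h2 := abs_le.1 (h _ (K.min'_mem hne))
  have h3 := abs_le.1 (h _ (K.max'_mem hne))
  have h4 : K.min' hne ≤ K.max' hne := K.min'_le _ (K.max'_mem hne)
  have h5 : (K.card : ℝ) ≤ ((K.max' hne + 1 - K.min' hne : ℕ) : ℝ) := by exact_mod_cast h1
  rw [Nat.cast_sub (by omega)] at h5
  push_cast at h5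
  linarith [h2.1, h2.2, h3.1, h3.2]

theorem I3_wins_fin (T H : ℝ) : (wins T H).Finite := by
  apply (Finset.range (⌊T + H⌋₊ + 1)).finite_toSet.subset
  intro k hk
  simp only [Finset.coe_range, Set.mem_Iio]
  have h2 : (k : ℝ) ≤ T + H := hk.2
  have := Nat.le_floor h2
  omega

theorem I3_wins (T H : ℝ) (hT : 0 ≤ T) (hH : 1 ≤ H) (S : Set ℕ) (hS : S ⊆ wins T H) :
    (S.ncard : ℝ) ≤ H + 2 := by
  have hf := I3_wins_fin T H
  have hSf : S.Finite := hf.subset hS
  obtain ⟨K, hK⟩ := hSf.exists_finset_coe
  rw [← hK, Set.ncard_coe_finset]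
  have h1 : ∀ k ∈ K, |(T + (H - 1) / 2) - (k : ℝ)| ≤ (H + 1) / 2 := by
    intro k hk
    have h2 : k ∈ wins T H := hS (by rw [← hK]; exact hk)
    obtain ⟨h3, h4⟩ := h2
    rw [abs_le]
    constructor <;> linarith
  have := I3_cnt K _ _ (by linarith) h1
  linarith

theorem I3_closed (σ δ M V : ℝ) (k : ℕ) (hk : M + 3 ≤ k) :
    IsClosed {s : ℂ | σ - δ ≤ s.re ∧ s.re ≤ 1 ∧ |s.im - k| ≤ M ∧ V ≤ ‖riemannZeta s‖} := by
  have hc : IsClosed {s : ℂ | σ - δ ≤ s.re ∧ s.re ≤ 1 ∧ |s.im - k| ≤ M} := by
    refine IsClosed.inter (isClosed_le continuous_const Complex.continuous_re) ?_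
    refine IsClosed.inter (isClosed_le Complex.continuous_re continuous_const) ?_
    exact isClosed_le ((Complex.continuous_im.sub continuous_const).abs) continuous_const
  have hf : ContinuousOn (fun s : ℂ => ‖riemannZeta s‖)
      {s : ℂ | σ - δ ≤ s.re ∧ s.re ≤ 1 ∧ |s.im - k| ≤ M} := by
    intro s hs
    have h1 : s ≠ 1 := by
      rintro rfl
      have := hs.2.2
      simp only [Complex.one_im, zero_sub, abs_neg, Nat.abs_cast] at this
      linarith
    exact ((differentiableAt_riemannZeta h1).continuousAt.norm).continuousWithinAt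
  have := hf.preimage_isClosed_of_isClosed hc (isClosed_Ici (a := V))
  convert this using 1
  ext s
  simp only [mem_setOf_eq, mem_inter_iff, mem_preimage, mem_Ici]
  tauto

theorem I3 (hJ : JEN_stmt) (hT : TRF_stmt) : I3_stmt := by
  intro θ b hθ hb hLv
  have hmono : ∀ σ : ℝ, 1 / 2 ≤ σ → σ ≤ 1 → (0 : ℝ) ≤ b σ := by
    intro σ h1 h2
    exact hb.one.trans (hb.anti ⟨h1, h2⟩ ⟨by norm_num, le_rfl⟩ h2)
  refine hT θ b (fun _ => 0) Cr {Lv} hθ hb hmono ?_ ?_ ?_
  · intro ε η hε hη
    refine ⟨3, by norm_num, ?_⟩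
    intro σ T H h1 h2 h3 h4
    have h5 : Cr ε σ T H ≤ H + 2 := I3_wins T H h3 h4 _ (fun k hk => hk.1)
    have h6 : (1 : ℝ) ≤ (T + H + 2) ^ η := Real.one_le_rpow (by linarith) hη.le
    calc Cr ε σ T H ≤ H + 2 := h5
      _ ≤ 3 * H := by linarith
      _ = 3 * 1 * H := by ring
      _ ≤ 3 * (T + H + 2) ^ η * H := by
          have : (0 : ℝ) ≤ H := by linarith
          nlinarith
  · intro ε δ η hε hδ hδ4 hη
    obtain ⟨v, M, c, K₀, hv, hM, hc, hK, hmain⟩ := hJ δ ε hδ hδ4 hε
    refine ⟨Lv, rfl, min η (v / 2), 2 * M + 10 + K₀ + (2 * M + 1) / c, lt_min hη (by linarith),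
      min_le_left _ _, ?_, ?_⟩
    · have : 0 < (2 * M + 1) / c := div_pos (by linarith) hc
      linarith
    intro σ T H h1 h2 h3 h4
    set X : ℝ := T + H + 2 with hX
    have hX3 : 3 ≤ X := by linarith
    have hXη : (1 : ℝ) ≤ X ^ η := Real.one_le_rpow (by linarith) hη.le
    have hcp : 0 < (2 * M + 1) / c := div_pos (by linarith) hc
    refine ⟨max (T - M - 2) 0, H + 2 * M + 6, le_max_right _ _, max_le (by linarith) h3,
      by linarith, ?_, ?_⟩
    · calc H + 2 * M + 6 ≤ (2 * M + 10 + K₀ + (2 * M + 1) / c) * 1 * H := by nlinarith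
        _ ≤ (2 * M + 10 + K₀ + (2 * M + 1) / c) * X ^ η * H := by
          have : (0 : ℝ) ≤ H := by linarith
          have h7 : 0 < 2 * M + 10 + K₀ + (2 * M + 1) / c := by linarith
          have := mul_le_mul_of_nonneg_left hXη h7.le
          nlinarith
    intro B hB hLB
    simp only [Real.rpow_zero]
    have hCr0 : Cr ε σ T H ≤ H + 2 := I3_wins T H h3 h4 _ (fun k hk => hk.1)
    have hfin : ∀ y : ℝ, y ≤ 2 * M + 10 + K₀ + (2 * M + 1) / c * B →
        y ≤ (2 * M + 10 + K₀ + (2 * M + 1) / c) * X ^ η * (1 + B) := by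
      intro y hy
      refine hy.trans ?_
      have h7 : 0 < 2 * M + 10 + K₀ := by linarith
      calc 2 * M + 10 + K₀ + (2 * M + 1) / c * B
          ≤ (2 * M + 10 + K₀ + (2 * M + 1) / c) * (1 + B) := by nlinarith
        _ = (2 * M + 10 + K₀ + (2 * M + 1) / c) * 1 * (1 + B) := by ring
        _ ≤ (2 * M + 10 + K₀ + (2 * M + 1) / c) * X ^ η * (1 + B) := by
          have h8 : 0 ≤ 1 + B := by linarith
          have h9 : 0 < 2 * M + 10 + K₀ + (2 * M + 1) / c := by linarith
          have := mul_le_mul_of_nonneg_left hXη h9.le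
          exact mul_le_mul_of_nonneg_right this h8
    apply hfin
    by_cases hX1 : X < 2 * M + 8
    · have : 0 ≤ (2 * M + 1) / c * B := mul_nonneg hcp.le hB
      linarith
    push Not at hX1
    -- the crowded windows
    have hfinset : {k : ℕ | k ∈ wins T H ∧ ε * Real.log (T + H + 2) ≤ ((dz σ k).ncard : ℝ)}.Finite :=
      (I3_wins_fin T H).subset (fun k hk => hk.1)
    obtain ⟨K1, hK1⟩ := hfinset.exists_finset_coe
    have hcard : Cr ε σ T H = (K1.card : ℝ) := by
      unfold Cr
      rw [← hK1, Set.ncard_coe_finset]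
    classical
    set K : Finset ℕ := K1.filter (fun k : ℕ => K₀ ≤ (k : ℝ)) with hKdef
    have hKmem : ∀ k ∈ K, k ∈ wins T H ∧ ε * Real.log X ≤ ((dz σ k).ncard : ℝ) ∧ K₀ ≤ (k : ℝ) := by
      intro k hk
      rw [hKdef, Finset.mem_filter] at hk
      have h8 : k ∈ (K1 : Set ℕ) := hk.1
      rw [hK1] at h8
      exact ⟨h8.1, h8.2, hk.2⟩
    set A : ℕ → Set ℂ := fun k => {s : ℂ | σ - δ ≤ s.re ∧ s.re ≤ 1 ∧ |s.im - k| ≤ M ∧
      X ^ v ≤ ‖riemannZeta s‖} with hA
    have hAm : ∀ k ∈ K, MeasurableSet (A k) := by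
      intro k hk
      exact (I3_closed σ δ M (X ^ v) k (by have := (hKmem k hk).2.2; linarith)).measurableSet
    have hlow : ∀ k ∈ K, ENNReal.ofReal c ≤ volume (A k) := by
      intro k hk
      obtain ⟨h8, h9, h10⟩ := hKmem k hk
      exact hmain X σ k h1 h2 h10 (by have := h8.2; linarith) h9
    have hover : ∑ k ∈ K, volume (A k) ≤ ENNReal.ofReal (2 * M + 1) * volume (⋃ k ∈ K, A k) := by
      apply I3_over volume K A hAm
      intro s
      have h8 : (∑ k ∈ K, (A k).indicator (1 : ℂ → ENNReal) s) =
          ((K.filter (fun k => s ∈ A k)).card : ENNReal) := by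
        rw [Finset.card_filter]
        push_cast
        refine Finset.sum_congr rfl fun k _ => ?_
        by_cases hs : s ∈ A k
        · simp [hs]
        · simp [hs]
      rw [h8]
      have h9 : ((K.filter (fun k => s ∈ A k)).card : ℝ) ≤ 2 * M + 1 := by
        apply I3_cnt _ s.im M (by linarith)
        intro k hk
        exact (Finset.mem_filter.1 hk).2.2.2.1
      calc ((K.filter (fun k => s ∈ A k)).card : ENNReal)
          = ENNReal.ofReal ((K.filter (fun k => s ∈ A k)).card : ℝ) := by
            rw [ENNReal.ofReal_natCast]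
        _ ≤ ENNReal.ofReal (2 * M + 1) := ENNReal.ofReal_le_ofReal h9
    set U : Set ℂ := ⋃ k ∈ K, A k with hU
    have hUm : MeasurableSet U := Finset.measurableSet_biUnion K hAm
    -- comparison of levels
    set X' : ℝ := max (T - M - 2) 0 + (H + 2 * M + 6) + 2 with hX'
    have hX'X : X' ≤ X ^ 2 := by
      have h8 : max (T - M - 2) 0 ≤ T := max_le (by linarith) h3
      have h9 : X' ≤ X + 2 * M + 6 := by rw [hX', hX]; linarith
      nlinarith
    have hX'1 : 1 ≤ X' := by
      have := le_max_right (T - M - 2) (0 : ℝ)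
      rw [hX']; linarith
    have hlev : X' ^ (min η (v / 2)) ≤ X ^ v := by
      calc X' ^ (min η (v / 2)) ≤ X' ^ (v / 2) :=
            Real.rpow_le_rpow_of_exponent_le hX'1 (min_le_right _ _)
        _ ≤ (X ^ 2) ^ (v / 2) := Real.rpow_le_rpow (by linarith) hX'X (by linarith)
        _ = X ^ v := by
          rw [← Real.rpow_natCast X 2, ← Real.rpow_mul (by linarith)]
          congr 1
          push_cast
          ring
    have hUvol : volume U ≤ ENNReal.ofReal B := by
      have h8 : volume U = (volume : Measure (ℝ × ℝ)) (Complex.measurableEquivRealProd.symm ⁻¹' U) := by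
        exact (Complex.volume_preserving_equiv_real_prod.symm.measure_preimage
          hUm.nullMeasurableSet).symm
      rw [h8, Measure.volume_eq_prod, Measure.prod_apply
        (Complex.measurableEquivRealProd.symm.measurable hUm)]
      calc ∫⁻ u : ℝ, volume (Prod.mk u ⁻¹' (Complex.measurableEquivRealProd.symm ⁻¹' U))
          ≤ ∫⁻ u : ℝ, (Icc (σ - δ) 1).indicator (fun _ => ENNReal.ofReal B) u := by
            apply lintegral_mono
            intro u
            by_cases hu : u ∈ Icc (σ - δ) 1
            · simp only [Set.indicator_of_mem hu]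
              have h9 := hLB u hu.1 hu.2
              have h10 : Prod.mk u ⁻¹' (Complex.measurableEquivRealProd.symm ⁻¹' U) ⊆
                  {t : ℝ | max (T - M - 2) 0 ≤ t ∧ t ≤ max (T - M - 2) 0 + (H + 2 * M + 6) ∧
                    X' ^ (min η (v / 2)) ≤ ‖riemannZeta ((u : ℂ) + t * I)‖} := by
                intro t ht
                have h11 : (Complex.measurableEquivRealProd.symm (u, t) : ℂ) ∈ U := ht
                have h12 : (Complex.measurableEquivRealProd.symm (u, t) : ℂ) = (u : ℂ) + t * I := by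
                  apply Complex.ext <;> simp [Complex.measurableEquivRealProd_symm_apply]
                rw [h12, hU] at h11
                simp only [mem_iUnion] at h11
                obtain ⟨k, hk, h13, h14, h15, h16⟩ := h11
                have h17 : ((u : ℂ) + t * I).im = t := by simp
                rw [h17] at h15
                obtain ⟨h18, h19, h20⟩ := hKmem k hk
                obtain ⟨h21, h22⟩ := h18
                obtain ⟨h23, h24⟩ := abs_le.1 h15
                refine ⟨max_le (by linarith) (by linarith), ?_, hlev.trans h16⟩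
                have := le_max_left (T - M - 2) (0 : ℝ)
                linarith
              refine (measure_mono h10).trans ?_
              have h11 : volume {t : ℝ | max (T - M - 2) 0 ≤ t ∧
                  t ≤ max (T - M - 2) 0 + (H + 2 * M + 6) ∧
                    X' ^ (min η (v / 2)) ≤ ‖riemannZeta ((u : ℂ) + t * I)‖} ≠ ⊤ := by
                refine ne_top_of_le_ne_top ?_ (measure_mono (t := Icc (max (T - M - 2) 0)
                  (max (T - M - 2) 0 + (H + 2 * M + 6))) fun t ht => ⟨ht.1, ht.2.1⟩)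
                rw [Real.volume_Icc]
                exact ENNReal.ofReal_ne_top
              rw [← ENNReal.ofReal_toReal h11]
              exact ENNReal.ofReal_le_ofReal h9
            · simp only [Set.indicator_of_notMem hu]
              have h9 : Prod.mk u ⁻¹' (Complex.measurableEquivRealProd.symm ⁻¹' U) = ∅ := by
                ext t
                simp only [mem_empty_iff_false, iff_false]
                intro ht
                have h11 : (Complex.measurableEquivRealProd.symm (u, t) : ℂ) ∈ U := ht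
                have h12 : (Complex.measurableEquivRealProd.symm (u, t) : ℂ) = (u : ℂ) + t * I := by
                  apply Complex.ext <;> simp [Complex.measurableEquivRealProd_symm_apply]
                rw [h12, hU] at h11
                simp only [mem_iUnion] at h11
                obtain ⟨k, hk, h13, h14, h15, h16⟩ := h11
                have h17 : ((u : ℂ) + t * I).re = u := by simp
                rw [h17] at h13 h14
                exact hu ⟨h13, h14⟩
              rw [h9]
              simp
        _ = ENNReal.ofReal B * volume (Icc (σ - δ) 1) := by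
            rw [lintegral_indicator_const measurableSet_Icc]
        _ ≤ ENNReal.ofReal B * 1 := by
            refine mul_le_mul' le_rfl ?_
            rw [Real.volume_Icc]
            rw [← ENNReal.ofReal_one]
            exact ENNReal.ofReal_le_ofReal (by linarith)
        _ = ENNReal.ofReal B := mul_one _
    have hKc : (K.card : ℝ) * c ≤ (2 * M + 1) * B := by
      have h8 : ENNReal.ofReal ((K.card : ℝ) * c) ≤ ENNReal.ofReal ((2 * M + 1) * B) := by
        calc ENNReal.ofReal ((K.card : ℝ) * c) = (K.card : ENNReal) * ENNReal.ofReal c := by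
              rw [ENNReal.ofReal_mul (by positivity), ENNReal.ofReal_natCast]
          _ = ∑ k ∈ K, ENNReal.ofReal c := by rw [Finset.sum_const, nsmul_eq_mul]
          _ ≤ ∑ k ∈ K, volume (A k) := Finset.sum_le_sum hlow
          _ ≤ ENNReal.ofReal (2 * M + 1) * volume U := hover
          _ ≤ ENNReal.ofReal (2 * M + 1) * ENNReal.ofReal B := mul_le_mul' le_rfl hUvol
          _ = ENNReal.ofReal ((2 * M + 1) * B) := by
              rw [ENNReal.ofReal_mul (by linarith)]
      exact (ENNReal.ofReal_le_ofReal_iff (by positivity)).1 h8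
    have hsmall : ((K1.filter (fun k : ℕ => ¬ K₀ ≤ (k : ℝ))).card : ℝ) ≤ K₀ + 1 := by
      have h8 : K1.filter (fun k : ℕ => ¬ K₀ ≤ (k : ℝ)) ⊆ Finset.range (⌊K₀⌋₊ + 1) := by
        intro k hk
        have h9 := (Finset.mem_filter.1 hk).2
        push Not at h9
        rw [Finset.mem_range]
        have := Nat.le_floor h9.le
        omega
      have h9 := Finset.card_le_card h8
      rw [Finset.card_range] at h9
      have h10 : ((K1.filter (fun k : ℕ => ¬ K₀ ≤ (k : ℝ))).card : ℝ) ≤ (⌊K₀⌋₊ : ℝ) + 1 := by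
        exact_mod_cast h9
      have h11 := Nat.floor_le (show 0 ≤ K₀ by linarith)
      linarith
    have htot : (K1.card : ℝ) = K.card + (K1.filter (fun k : ℕ => ¬ K₀ ≤ (k : ℝ))).card := by
      rw [hKdef]
      exact_mod_cast (Finset.card_filter_add_card_filter_not (s := K1) (fun k => K₀ ≤ (k : ℝ))).symm
    rw [hcard, htot]
    have hKc' : (K.card : ℝ) ≤ (2 * M + 1) / c * B := by
      rw [div_mul_eq_mul_div, le_div_iff₀ hc]
      exact hKc
    linarith
  · intro G hG
    rw [Set.mem_singleton_iff] at hG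
    rw [hG]
    exact hLv

end Pool.Agent.EQ
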