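import Pool.Agent.helper78.EQ.Spec2
import Pool.Agent.helper40.EQ.I3

set_option autoImplicit false

open Complex MeasureTheory Set Metric

namespace Pool.Agent.EQ

open Pool.Agent.helper6.LD

/-- many sets of measure at least `c` with bounded overlap -/
theorem AR1_core (σ δ M V c B : ℝ) (K : Finset ℕ) (hM : 0 ≤ M) (hc : 0 < c) (hB : 0 ≤ B)
    (hK : ∀ k ∈ K, M + 3 ≤ (k : ℝ))
    (hlow : ∀ k ∈ K, ENNReal.ofReal c ≤
      volume {s : ℂ | σ - δ ≤ s.re ∧ s.re ≤ 1 ∧ |s.im - k| ≤ M ∧ V ≤ ‖riemannZeta s‖})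
    (hU : volume (⋃ k ∈ K, {s : ℂ | σ - δ ≤ s.re ∧ s.re ≤ 1 ∧ |s.im - k| ≤ M ∧
      V ≤ ‖riemannZeta s‖}) ≤ ENNReal.ofReal B) :
    (K.card : ℝ) * c ≤ (2 * M + 1) * B := by
  classical
  set A : ℕ → Set ℂ := fun k => {s : ℂ | σ - δ ≤ s.re ∧ s.re ≤ 1 ∧ |s.im - k| ≤ M ∧
      V ≤ ‖riemannZeta s‖} with hA
  have hAm : ∀ k ∈ K, MeasurableSet (A k) := by
    intro k hk
    exact (I3_closed σ δ M V k (hK k hk)).measurableSet
  have hover : ∑ k ∈ K, volume (A k) ≤ ENNReal.ofReal (2 * M + 1) * volume (⋃ k ∈ K, A k) := by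
    apply I3_over volume K A hAm
    intro s
    have h8 : (∑ k ∈ K, (A k).indicator (1 : ℂ → ENNReal) s) =
        ((K.filter (fun k => s ∈ A k)).card : ENNReal) := by
      rw [Finset.card_filter]
      push_cast
      refine Finset.sum_congr rfl fun k _ => ?_
      by_cases hs : s ∈ A k
      · simp [hs]
      · simp [hs]
    rw [h8]
    have h9 : ((K.filter (fun k => s ∈ A k)).card : ℝ) ≤ 2 * M + 1 := by
      apply I3_cnt _ s.im M hM
      intro k hk
      exact (Finset.mem_filter.1 hk).2.2.2.1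
    calc ((K.filter (fun k => s ∈ A k)).card : ENNReal)
        = ENNReal.ofReal ((K.filter (fun k => s ∈ A k)).card : ℝ) := by
          rw [ENNReal.ofReal_natCast]
      _ ≤ ENNReal.ofReal (2 * M + 1) := ENNReal.ofReal_le_ofReal h9
  have h8 : ENNReal.ofReal ((K.card : ℝ) * c) ≤ ENNReal.ofReal ((2 * M + 1) * B) := by
    calc ENNReal.ofReal ((K.card : ℝ) * c) = (K.card : ENNReal) * ENNReal.ofReal c := by
          rw [ENNReal.ofReal_mul (by positivity), ENNReal.ofReal_natCast]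
      _ = ∑ k ∈ K, ENNReal.ofReal c := by rw [Finset.sum_const, nsmul_eq_mul]
      _ ≤ ∑ k ∈ K, volume (A k) := Finset.sum_le_sum hlow
      _ ≤ ENNReal.ofReal (2 * M + 1) * volume (⋃ k ∈ K, A k) := hover
      _ ≤ ENNReal.ofReal (2 * M + 1) * ENNReal.ofReal B := mul_le_mul' le_rfl hU
      _ = ENNReal.ofReal ((2 * M + 1) * B) := by
          rw [ENNReal.ofReal_mul (by linarith)]
  exact (ENNReal.ofReal_le_ofReal_iff (by positivity)).1 h8

/-- splitting off the small windows -/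
theorem AR1_split (K1 : Finset ℕ) (K₀ : ℝ) (hK : 0 ≤ K₀) :
    (K1.card : ℝ) ≤ K₀ + 1 + ((K1.filter (fun k : ℕ => K₀ ≤ (k : ℝ))).card : ℝ) := by
  classical
  have hsmall : ((K1.filter (fun k : ℕ => ¬ K₀ ≤ (k : ℝ))).card : ℝ) ≤ K₀ + 1 := by
    have h8 : K1.filter (fun k : ℕ => ¬ K₀ ≤ (k : ℝ)) ⊆ Finset.range (⌊K₀⌋₊ + 1) := by
      intro k hk
      have h9 := (Finset.mem_filter.1 hk).2
      push Not at h9
      rw [Finset.mem_range]
      have := Nat.le_floor h9.le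
      omega
    have h9 := Finset.card_le_card h8
    rw [Finset.card_range] at h9
    have h10 : ((K1.filter (fun k : ℕ => ¬ K₀ ≤ (k : ℝ))).card : ℝ) ≤ (⌊K₀⌋₊ : ℝ) + 1 := by
      exact_mod_cast h9
    have h11 := Nat.floor_le hK
    linarith
  have htot : (K1.card : ℝ) = (K1.filter (fun k : ℕ => K₀ ≤ (k : ℝ))).card +
      (K1.filter (fun k : ℕ => ¬ K₀ ≤ (k : ℝ))).card := by
    exact_mod_cast (Finset.card_filter_add_card_filter_not (s := K1)
      (fun k : ℕ => K₀ ≤ (k : ℝ))).symm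
  linarith

theorem AR1 (hJ : JEN_stmt) : AR1_stmt := by
  intro δ ε hδ hδ4 hε
  obtain ⟨v, M, c, K₀, hv, hM, hc, hK, hmain⟩ := hJ δ ε hδ hδ4 hε
  have hcp : 0 < (2 * M + 1) / c := div_pos (by linarith) hc
  refine ⟨v, M + 2 + K₀ + (2 * M + 1) / c, hv, by linarith, ?_⟩
  intro σ T H h1 h2 h3 h4
  set C : ℝ := M + 2 + K₀ + (2 * M + 1) / c with hC
  set X : ℝ := T + H + 2 with hX
  have hfinset : {k : ℕ | k ∈ wins T H ∧ ε * Real.log (T + H + 2) ≤ ((dz σ k).ncard : ℝ)}.Finite :=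
    (I3_wins_fin T H).subset (fun k hk => hk.1)
  obtain ⟨K1, hK1⟩ := hfinset.exists_finset_coe
  have hcard : Cr ε σ T H = (K1.card : ℝ) := by
    unfold Cr
    rw [← hK1, Set.ncard_coe_finset]
  classical
  set K : Finset ℕ := K1.filter (fun k : ℕ => K₀ ≤ (k : ℝ)) with hKdef
  have hKmem : ∀ k ∈ K, k ∈ wins T H ∧ ε * Real.log X ≤ ((dz σ k).ncard : ℝ) ∧ K₀ ≤ (k : ℝ) := by
    intro k hk
    rw [hKdef, Finset.mem_filter] at hk
    have h8 : k ∈ (K1 : Set ℕ) := hk.1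
    rw [hK1] at h8
    exact ⟨h8.1, h8.2, hk.2⟩
  have hB0 : 0 ≤ Ar v (σ - δ) T H C := ENNReal.toReal_nonneg
  have hcore : (K.card : ℝ) * c ≤ (2 * M + 1) * Ar v (σ - δ) T H C := by
    refine AR1_core σ δ M (X ^ v) c _ K (by linarith) hc hB0 ?_ ?_ ?_
    · intro k hk
      have := (hKmem k hk).2.2
      linarith
    · intro k hk
      obtain ⟨h8, h9, h10⟩ := hKmem k hk
      exact hmain X σ k h1 h2 h10 (by have := h8.2; linarith) h9
    · have hsub : (⋃ k ∈ K, {s : ℂ | σ - δ ≤ s.re ∧ s.re ≤ 1 ∧ |s.im - k| ≤ M ∧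
          X ^ v ≤ ‖riemannZeta s‖}) ⊆ {s : ℂ | σ - δ ≤ s.re ∧ s.re ≤ 1 ∧ T - C ≤ s.im ∧
            s.im ≤ T + H + C ∧ (T + H + 2) ^ v ≤ ‖riemannZeta s‖} := by
        intro s hs
        simp only [mem_iUnion] at hs
        obtain ⟨k, hk, h13, h14, h15, h16⟩ := hs
        obtain ⟨⟨h21, h22⟩, h19, h20⟩ := hKmem k hk
        obtain ⟨h23, h24⟩ := abs_le.1 h15
        exact ⟨h13, h14, by linarith, by linarith, h16⟩
      refine (measure_mono hsub).trans ?_
      have hfin : volume {s : ℂ | σ - δ ≤ s.re ∧ s.re ≤ 1 ∧ T - C ≤ s.im ∧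
            s.im ≤ T + H + C ∧ (T + H + 2) ^ v ≤ ‖riemannZeta s‖} ≠ ⊤ := by
        refine ne_top_of_le_ne_top ?_ (measure_mono (t := closedBall (0 : ℂ) (1 + (T + H + C)))
          ?_)
        · exact measure_closedBall_lt_top.ne
        · rintro s ⟨h13, h14, h15, h16, -⟩
          rw [mem_closedBall_zero_iff]
          refine (Complex.norm_le_abs_re_add_abs_im s).trans ?_
          have h17 : |s.re| ≤ 1 := abs_le.2 ⟨by linarith, h14⟩
          have h18 : |s.im| ≤ T + H + C := abs_le.2 ⟨by linarith, h16⟩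
          linarith
      unfold Ar
      rw [ENNReal.ofReal_toReal hfin]
  have h9 := AR1_split K1 K₀ (by linarith)
  have hKc' : (K.card : ℝ) ≤ (2 * M + 1) / c * Ar v (σ - δ) T H C := by
    rw [div_mul_eq_mul_div, le_div_iff₀ hc]
    exact hcore
  rw [hcard]
  have h10 : (2 * M + 1) / c * Ar v (σ - δ) T H C ≤ C * Ar v (σ - δ) T H C :=
    mul_le_mul_of_nonneg_right (by linarith) hB0
  have h11 : K₀ + 1 ≤ C := by linarith
  rw [← hKdef] at h9
  linarith

end Pool.Agent.EQ
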